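import Pool.Agent.Helper50.HT.Stmts

set_option autoImplicit false

namespace Pool.Agent.Helper9.HT

open Pool.Agent.Helper95 Pool.Agent.Helper95.PW Pool.Agent.Helper95.LN Pool.Agent.Helper50.HT

theorem le_nr (y : R3) (i : Fin 3) : |y i| ≤ nr y := by
  unfold nr
  apply Real.abs_le_sqrt
  fin_cases i
  · change y 0 ^ 2 ≤ _
    nlinarith [sq_nonneg (y 1), sq_nonneg (y 2)]
  · change y 1 ^ 2 ≤ _
    nlinarith [sq_nonneg (y 0), sq_nonneg (y 2)]
  · change y 2 ^ 2 ≤ _
    nlinarith [sq_nonneg (y 0), sq_nonneg (y 1)]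

/-- the box -/
noncomputable def bx (v : Fin 3 → ℤ) (K : ℕ) : Finset (Fin 3 → ℤ) :=
  Fintype.piFinset (fun i => Finset.Icc (v i - K) (v i + K))

theorem card_bx (v : Fin 3 → ℤ) (K : ℕ) : (bx v K).card = (2 * K + 1) ^ 3 := by
  unfold bx
  rw [Fintype.card_piFinset]
  have h : ∀ i : Fin 3, (Finset.Icc (v i - K) (v i + K)).card = 2 * K + 1 := by
    intro i
    rw [Int.card_Icc]
    have : v i + K + 1 - (v i - K) = ((2 * K + 1 : ℕ) : ℤ) := by push_cast; ring
    rw [this, Int.toNat_natCast]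
  simp [h]

theorem mem_bx (v w : Fin 3 → ℤ) (K : ℕ) : w ∈ bx v K ↔ ∀ i, |w i - v i| ≤ (K : ℤ) := by
  unfold bx
  rw [Fintype.mem_piFinset]
  refine forall_congr' fun i => ?_
  rw [Finset.mem_Icc, abs_le]
  constructor
  · rintro ⟨h1, h2⟩; constructor <;> linarith
  · rintro ⟨h1, h2⟩; constructor <;> linarith

theorem main (v : Fin 3 → ℤ) : ∀ (K : ℕ) (S : Finset (Fin 3 → ℤ)),
    (∀ w ∈ S, ∀ i, |w i - v i| ≤ (K : ℤ)) →
    ∑ w ∈ S, (if w = v then (0 : ℝ) else 1 / nr (fun i => ((w i : ℝ) - (v i : ℝ)))) ≤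
      13 * (K : ℝ) * (K + 1) := by
  intro K
  induction K with
  | zero =>
    intro S hS
    have h0 : ∑ w ∈ S, (if w = v then (0 : ℝ) else
        1 / nr (fun i => ((w i : ℝ) - (v i : ℝ)))) = 0 := by
      refine Finset.sum_eq_zero fun w hw => ?_
      have : w = v := by
        funext i
        have := hS w hw i
        rw [Nat.cast_zero, abs_nonpos_iff] at this
        linarith
      rw [if_pos this]
    rw [h0]
    simp
  | succ K ih =>
    intro S hS
    rw [← Finset.sum_filter_add_sum_filter_not S (fun w => w ∈ bx v K)]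
    have h1 := ih (S.filter (fun w => w ∈ bx v K)) (by
      intro w hw
      exact (mem_bx v w K).1 (Finset.mem_filter.1 hw).2)
    have hsub : S.filter (fun w => ¬ w ∈ bx v K) ⊆ bx v (K + 1) \ bx v K := by
      intro w hw
      rw [Finset.mem_filter] at hw
      rw [Finset.mem_sdiff]
      refine ⟨(mem_bx v w (K + 1)).2 ?_, hw.2⟩
      intro i
      exact hS w hw.1 i
    have hbb : bx v K ⊆ bx v (K + 1) := by
      intro w hw
      rw [mem_bx] at hw ⊢
      intro i
      have := hw i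
      push_cast
      linarith
    have hcard : ((S.filter (fun w => ¬ w ∈ bx v K)).card : ℝ) ≤
        24 * (K : ℝ) ^ 2 + 48 * K + 26 := by
      have h2 := Finset.card_le_card hsub
      rw [Finset.card_sdiff_of_subset hbb, card_bx, card_bx] at h2
      have h3 : (2 * (K + 1) + 1) ^ 3 - (2 * K + 1) ^ 3 = 24 * K ^ 2 + 48 * K + 26 := by
        have : (2 * (K + 1) + 1) ^ 3 = (24 * K ^ 2 + 48 * K + 26) + (2 * K + 1) ^ 3 := by ring
        rw [this, Nat.add_sub_cancel]
      rw [h3] at h2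
      exact_mod_cast h2
    have hK : (0 : ℝ) < (K : ℝ) + 1 := by positivity
    have h4 : ∑ w ∈ S.filter (fun w => ¬ w ∈ bx v K), (if w = v then (0 : ℝ) else
        1 / nr (fun i => ((w i : ℝ) - (v i : ℝ)))) ≤
        (S.filter (fun w => ¬ w ∈ bx v K)).card • (1 / ((K : ℝ) + 1)) := by
      refine Finset.sum_le_card_nsmul _ _ _ fun w hw => ?_
      rw [Finset.mem_filter] at hw
      split_ifs with hwv
      · positivity
      · have h5 := hw.2
        rw [mem_bx] at h5
        push Not at h5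
        obtain ⟨i, hi⟩ := h5
        have h6 : ((K : ℤ) + 1) ≤ |w i - v i| := hi
        have h7 : ((K : ℝ) + 1) ≤ |(w i : ℝ) - (v i : ℝ)| := by exact_mod_cast h6
        have h8 := h7.trans (le_nr (fun i => ((w i : ℝ) - (v i : ℝ))) i)
        exact one_div_le_one_div_of_le hK h8
    rw [nsmul_eq_mul] at h4
    have h5 : ((S.filter (fun w => ¬ w ∈ bx v K)).card : ℝ) * (1 / ((K : ℝ) + 1)) ≤
        26 * ((K : ℝ) + 1) := by
      rw [mul_one_div, div_le_iff₀ hK]
      refine hcard.trans ?_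
      have : (0 : ℝ) ≤ K := Nat.cast_nonneg K
      nlinarith
    push_cast
    nlinarith

theorem LAT : ST_LAT := by
  intro K S v hS
  have h := main v K S hS
  refine h.trans ?_
  rcases Nat.eq_zero_or_pos K with hK | hK
  · subst hK; simp
  · have : (1 : ℝ) ≤ K := by exact_mod_cast hK
    nlinarith

end Pool.Agent.Helper9.HT
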