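import Pool.Agent.Helper50.HT.Stmts

set_option autoImplicit false

namespace Pool.Agent.Helper9.HT

open MeasureTheory Filter Pool.Agent.Helper95 Pool.Agent.Helper95.PW Pool.Agent.Helper95.LN
  Pool.Agent.Helper50.HT

theorem nr_eq (y : R3) : nr y = ‖(WithLp.toLp 2 y : EuclideanSpace ℝ (Fin 3))‖ := by
  rw [EuclideanSpace.norm_eq]
  simp [nr, Fin.sum_univ_three, sq_abs]

theorem nr_nonneg (y : R3) : 0 ≤ nr y := Real.sqrt_nonneg _

theorem nr_neg (y : R3) : nr (-y) = nr y := by
  unfold nr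
  simp only [Pi.neg_apply, neg_sq]

theorem nr_comm (x y : R3) : nr (x - y) = nr (y - x) := by
  rw [← nr_neg, neg_sub]

theorem nr_zero : nr (0 : R3) = 0 := by
  unfold nr; simp

theorem nr_tri (a b : R3) : nr a ≤ nr (a + b) + nr b := by
  rw [nr_eq, nr_eq, nr_eq]
  have h : (WithLp.toLp 2 a : EuclideanSpace ℝ (Fin 3)) =
      WithLp.toLp 2 (a + b) - WithLp.toLp 2 b := by
    rw [← WithLp.toLp_sub, add_sub_cancel_right]
  rw [h]
  exact norm_sub_le _ _

theorem half_sum {n : ℕ} (S : Fin n → Fin n → ℝ) (hs : ∀ i j, S i j = S j i)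
    (h0 : ∀ i, S i i = 0) :
    2 * (∑ i, ∑ j, if i < j then S i j else 0) = ∑ i, ∑ j, S i j := by
  have e : ∀ i j, S i j = (if i < j then S i j else 0) + (if j < i then S i j else 0) := by
    intro i j
    rcases lt_trichotomy i j with h | h | h
    · rw [if_pos h, if_neg (not_lt.2 h.le), add_zero]
    · subst h
      rw [if_neg (lt_irrefl i), h0, add_zero]
    · rw [if_neg (not_lt.2 h.le), if_pos h, zero_add]
  have e2 : ∑ i, ∑ j, (if j < i then S i j else 0) = ∑ i, ∑ j, if i < j then S i j else 0 := by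
    rw [Finset.sum_comm]
    refine Finset.sum_congr rfl fun i _ => Finset.sum_congr rfl fun j _ => ?_
    rw [hs j i]
  have e3 : ∑ i, ∑ j, S i j = (∑ i, ∑ j, if i < j then S i j else 0) +
      ∑ i, ∑ j, if j < i then S i j else 0 := by
    rw [← Finset.sum_add_distrib]
    refine Finset.sum_congr rfl fun i _ => ?_
    rw [← Finset.sum_add_distrib]
    exact Finset.sum_congr rfl fun j _ => e i j
  rw [e3, e2]
  ring

theorem TRX (h1 : ST_PTC) (h2 : ST_ATM) (h3 : ST_IAB) (h4 : LN.ST_PK4) : ST_TRX := by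
  intro κ d hκ hd
  obtain ⟨C1, hC1, hP⟩ := h1
  obtain ⟨C2, hC2, hI⟩ := h3
  obtain ⟨C3, hC3, hK⟩ := h4
  have hD : 0 < d / 4 := by positivity
  obtain ⟨c0, x0, hc0, hx0, hA⟩ := h2 C1 κ (d / 4) hC1 hκ hD
  set C' : ℝ := C2 * (d / 4) ^ 3 * C3 / (2 * d ^ 4) with hC'
  have hC'0 : 0 < C' := by positivity
  refine ⟨c0 / 2, max x0 (2 * C' / c0), by positivity, le_max_of_le_left hx0, ?_⟩
  intro n M X Z E x hx hS hn hZ1 hZ2 hE
  subst hn
  have hxx : x0 ≤ x := (le_max_left _ _).trans hx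
  have hxc : 2 * C' / c0 ≤ x := (le_max_right _ _).trans hx
  have hxpos : 0 < x := lt_of_lt_of_le (by linarith) hxx
  choose P a hat using fun j => hA x (Z j) hxx (hZ1 j) (hZ2 j)
  let s : Fin (∑ j, Z j) ≃ (Σ j : Fin M, Fin (Z j)) := finSigmaFinEquiv.symm
  let pp : (Σ j : Fin M, Fin (Z j)) → R3 := fun q => X q.1 + P q.1 q.2
  let aa : (Σ j : Fin M, Fin (Z j)) → ℝ := fun q => a q.1 q.2
  have hsum : ∀ F : (Σ j : Fin M, Fin (Z j)) → ℝ, ∑ k, F (s k) = ∑ j, ∑ i, F ⟨j, i⟩ := by
    intro F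
    rw [Equiv.sum_comp s F, Fintype.sum_sigma]
  -- distances
  have hfar : ∀ (j j' : Fin M) (v w : R3), j ≠ j' → nr v ≤ d / 4 → nr w ≤ d / 4 →
      7 / 2 * d ≤ nr (X j + v - (X j' + w)) := by
    intro j j' v w hj hv hw
    have e1 := hS j j' hj
    have e2 := nr_tri (X j - X j') v
    have e3 := nr_tri (X j - X j' + v) (-w)
    rw [nr_neg] at e3
    have e4 : X j - X j' + v + -w = X j + v - (X j' + w) := by abel
    rw [e4] at e3
    linarith
  have hE1 := hP (∑ j, Z j) M X (fun j => (Z j : ℝ)) E (fun k => pp (s k)) (fun k => aa (s k))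
    (fun k => (hat _).pos _) (fun j => Nat.cast_nonneg _)
    (by
      intro k l hkl
      have hq : s k ≠ s l := s.injective.ne hkl
      revert hq
      generalize s k = q
      generalize s l = q'
      intro hq
      obtain ⟨j, i⟩ := q
      obtain ⟨j', i'⟩ := q'
      by_cases h : j = j'
      · subst h
        have hi : i ≠ i' := fun h => hq (by rw [h])
        have e : pp ⟨j, i⟩ - pp ⟨j, i'⟩ = P j i - P j i' := by
          simp only [pp]; abel
        rw [e]
        exact (hat j).sep i i' hi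
      · have e1 := hfar j j' (P j i) (P j' i') h ((hat j).inD i) ((hat j').inD i')
        have e2 := (hat j).small i
        have e3 := (hat j').small i'
        change 3 * (a j i + a j' i') ≤ nr (X j + P j i - (X j' + P j' i'))
        linarith)
    (by
      intro k j'
      generalize s k = q
      obtain ⟨j, i⟩ := q
      change X j + P j i = X j' ∨ 2 * a j i ≤ nr (X j + P j i - X j')
      by_cases h : j = j'
      · subst h
        rcases (hat j).nuc i with h | h
        · left; rw [h, add_zero]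
        · right
          rw [add_sub_cancel_left]
          exact h
      · right
        have e1 := hfar j j' (P j i) 0 h ((hat j).inD i) (by rw [nr_zero]; exact hD.le)
        rw [add_zero] at e1
        have e2 := (hat j).small i
        linarith)
    hE
  -- sums over the atoms
  have e1 : ∑ k, 1 / aa (s k) ^ 2 = ∑ j, ∑ i, 1 / a j i ^ 2 := hsum (fun q => 1 / aa q ^ 2)
  set A : Fin M → Fin M → ℝ := fun j j' => ∑ i, (Z j' : ℝ) / nr (X j + P j i - X j') with hAd
  have e2 : ∑ k, ∑ j', (Z j' : ℝ) / nr (pp (s k) - X j') = ∑ j, ∑ j', A j j' := by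
    rw [hsum (fun q => ∑ j', (Z j' : ℝ) / nr (pp q - X j'))]
    refine Finset.sum_congr rfl fun j _ => ?_
    rw [Finset.sum_comm]
  set V : Fin M → Fin M → ℝ := fun j j' => ∑ i, ∑ i', 1 / nr (X j + P j i - (X j' + P j' i'))
    with hVd
  have e3 : 2 * (∑ k, ∑ l, if k < l then 1 / nr (pp (s k) - pp (s l)) else 0) =
      ∑ j, ∑ j', V j j' := by
    rw [half_sum (fun k l => 1 / nr (pp (s k) - pp (s l))) (fun k l => by rw [nr_comm])
      (fun k => by rw [sub_self, nr_zero, div_zero])]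
    rw [hsum (fun q => ∑ l, 1 / nr (pp q - pp (s l)))]
    refine Finset.sum_congr rfl fun j _ => ?_
    rw [Finset.sum_comm (γ := Fin (Z j))]
    rw [hsum (fun q' => ∑ i, 1 / nr (pp ⟨j, i⟩ - pp q'))]
    refine Finset.sum_congr rfl fun j' _ => ?_
    rw [Finset.sum_comm]
  have e4 : 2 * nucR X (fun j => (Z j : ℝ)) =
      ∑ j, ∑ j', (Z j : ℝ) * (Z j' : ℝ) / nr (X j - X j') := by
    unfold nucR
    rw [half_sum (fun j j' => (Z j : ℝ) * (Z j' : ℝ) / nr (X j - X j'))
      (fun k l => by rw [nr_comm, mul_comm]) (fun k => by rw [sub_self, nr_zero, div_zero])]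
  have e5 : ∑ j, ∑ j', A j' j = ∑ j, ∑ j', A j j' := Finset.sum_comm
  -- the main bound
  set t : Fin M → Fin M → ℝ := fun j j' =>
    if d ≤ nr (X j - X j') then 1 / nr (X j - X j') ^ 4 else 0 with ht
  have ht0 : ∀ j j', 0 ≤ t j j' := by
    intro j j'
    simp only [ht]
    split_ifs
    · have := nr_nonneg (X j - X j')
      positivity
    · exact le_rfl
  have hQ : 0 ≤ C2 * x ^ 6 * (d / 4) ^ 3 := by positivity
  have key : ∀ j j', V j j' - A j j' - A j' j + (Z j : ℝ) * (Z j' : ℝ) / nr (X j - X j') ≤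
      (if j = j' then 2 * (-(c0 * x ^ 7) - C1 * ∑ i, 1 / a j i ^ 2) else 0) +
        C2 * x ^ 6 * (d / 4) ^ 3 * t j j' := by
    intro j j'
    by_cases h : j = j'
    · subst h
      rw [if_pos rfl, sub_self, nr_zero, div_zero]
      have f1 := (hat j).en
      have f2 : V j j = 2 * (∑ i, ∑ i', if i < i' then 1 / nr (P j i - P j i') else 0) := by
        rw [half_sum (fun i i' => 1 / nr (P j i - P j i')) (fun k l => by rw [nr_comm])
          (fun k => by rw [sub_self, nr_zero, div_zero])]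
        refine Finset.sum_congr rfl fun i _ => Finset.sum_congr rfl fun i' _ => ?_
        rw [add_sub_add_left_eq_sub]
      have f3 : A j j = (Z j : ℝ) * ∑ i, 1 / nr (P j i) := by
        simp only [hAd]
        rw [Finset.mul_sum]
        refine Finset.sum_congr rfl fun i _ => ?_
        rw [add_sub_cancel_left, mul_one_div]
      have f4 := mul_nonneg hQ (ht0 j j)
      rw [f2, f3]
      linarith
    · rw [if_neg h, zero_add]
      have g0 := hS j j' h
      have f1 := le_of_abs_le (hI (Z j) (Z j') (P j) (P j') (X j - X j') (d / 4) hD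
        (hat j).inD (hat j').inD (by linarith) (hat j).sym (hat j').sym)
      have f2 : V j j' = ∑ k, ∑ l, 1 / nr (X j - X j' + P j k - P j' l) := by
        refine Finset.sum_congr rfl fun i _ => Finset.sum_congr rfl fun i' _ => ?_
        congr 2
        abel
      have f3 : A j j' = (Z j' : ℝ) * ∑ k, 1 / nr (X j - X j' + P j k) := by
        simp only [hAd]
        rw [Finset.mul_sum]
        refine Finset.sum_congr rfl fun i _ => ?_
        rw [mul_one_div]
        congr 2
        abel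
      have f4 : A j' j = (Z j : ℝ) * ∑ l, 1 / nr (X j - X j' - P j' l) := by
        simp only [hAd]
        rw [Finset.mul_sum]
        refine Finset.sum_congr rfl fun i _ => ?_
        rw [mul_one_div, ← nr_neg (X j' + P j' i - X j)]
        congr 2
        abel
      have hR : 0 < nr (X j - X j') := by linarith
      have f5 : C2 * (Z j : ℝ) * (Z j' : ℝ) * (d / 4) ^ 3 / nr (X j - X j') ^ 4 ≤
          C2 * x ^ 6 * (d / 4) ^ 3 * t j j' := by
        simp only [ht]
        rw [if_pos (by linarith), mul_one_div]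
        have g1 : (Z j : ℝ) * (Z j' : ℝ) ≤ x ^ 3 * x ^ 3 :=
          mul_le_mul (hZ2 j) (hZ2 j') (Nat.cast_nonneg _) (by positivity)
        have g2 : C2 * (Z j : ℝ) * (Z j' : ℝ) * (d / 4) ^ 3 ≤ C2 * x ^ 6 * (d / 4) ^ 3 := by
          have : C2 * ((Z j : ℝ) * (Z j' : ℝ)) ≤ C2 * (x ^ 3 * x ^ 3) :=
            mul_le_mul_of_nonneg_left g1 hC2.le
          calc C2 * (Z j : ℝ) * (Z j' : ℝ) * (d / 4) ^ 3
              = C2 * ((Z j : ℝ) * (Z j' : ℝ)) * (d / 4) ^ 3 := by ring
            _ ≤ C2 * (x ^ 3 * x ^ 3) * (d / 4) ^ 3 :=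
              mul_le_mul_of_nonneg_right this (by positivity)
            _ = _ := by ring
        exact div_le_div_of_nonneg_right g2 (by positivity)
      rw [f2, f3, f4]
      linarith
  -- sum of the bounds
  have hs1 : ∑ j, ∑ j', (V j j' - A j j' - A j' j + (Z j : ℝ) * (Z j' : ℝ) / nr (X j - X j')) ≤
      ∑ j, ∑ j', ((if j = j' then 2 * (-(c0 * x ^ 7) - C1 * ∑ i, 1 / a j i ^ 2) else 0) +
        C2 * x ^ 6 * (d / 4) ^ 3 * t j j') :=
    Finset.sum_le_sum fun j _ => Finset.sum_le_sum fun j' _ => key j j'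
  have hs2 : ∑ j, ∑ j', (V j j' - A j j' - A j' j +
      (Z j : ℝ) * (Z j' : ℝ) / nr (X j - X j')) =
      2 * (∑ k, ∑ l, if k < l then 1 / nr (pp (s k) - pp (s l)) else 0) -
        2 * (∑ k, ∑ j', (Z j' : ℝ) / nr (pp (s k) - X j')) +
        2 * nucR X (fun j => (Z j : ℝ)) := by
    rw [e3, e2, e4]
    simp only [Finset.sum_add_distrib, Finset.sum_sub_distrib]
    rw [e5]
    ring
  have hs3 : ∑ j, ∑ j', ((if j = j' then 2 * (-(c0 * x ^ 7) - C1 * ∑ i, 1 / a j i ^ 2) else 0) +
        C2 * x ^ 6 * (d / 4) ^ 3 * t j j') ≤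
      2 * (-(M * (c0 * x ^ 7)) - C1 * ∑ j, ∑ i, 1 / a j i ^ 2) + 2 * (M * (C' * x ^ 6)) := by
    have g1 : ∀ j, ∑ j', ((if j = j' then 2 * (-(c0 * x ^ 7) - C1 * ∑ i, 1 / a j i ^ 2) else 0) +
        C2 * x ^ 6 * (d / 4) ^ 3 * t j j') ≤
        2 * (-(c0 * x ^ 7) - C1 * ∑ i, 1 / a j i ^ 2) + 2 * (C' * x ^ 6) := by
      intro j
      rw [Finset.sum_add_distrib, ← Finset.mul_sum]
      have g2 : ∑ j', t j j' ≤ C3 / d ^ 4 := hK M X d (X j) hd hS
      have g3 := mul_le_mul_of_nonneg_left g2 hQ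
      have g4 : C2 * x ^ 6 * (d / 4) ^ 3 * (C3 / d ^ 4) = 2 * (C' * x ^ 6) := by
        rw [hC']
        field_simp
      rw [g4] at g3
      simp only [Finset.sum_ite_eq, Finset.mem_univ, if_true]
      linarith
    refine (Finset.sum_le_sum fun j _ => g1 j).trans (le_of_eq ?_)
    rw [Finset.sum_add_distrib, ← Finset.mul_sum, Finset.sum_sub_distrib, ← Finset.mul_sum]
    simp
    ring
  have hfin : 2 * C' ≤ c0 * x := by
    rw [div_le_iff₀ hc0] at hxc
    linarith
  have hfin2 : (M : ℝ) * (C' * x ^ 6) ≤ M * (c0 / 2 * x ^ 7) := by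
    apply mul_le_mul_of_nonneg_left _ (Nat.cast_nonneg _)
    have : C' * x ^ 6 ≤ (c0 / 2 * x) * x ^ 6 :=
      mul_le_mul_of_nonneg_right (by linarith) (by positivity)
    calc C' * x ^ 6 ≤ (c0 / 2 * x) * x ^ 6 := this
      _ = c0 / 2 * x ^ 7 := by ring
  have hE2 : E ≤ C1 * (∑ k, 1 / aa (s k) ^ 2) -
      (∑ k, ∑ j', (Z j' : ℝ) / nr (pp (s k) - X j')) +
      ∑ k, ∑ l, if k < l then 1 / nr (pp (s k) - pp (s l)) else 0 := hE1
  rw [e1] at hE2
  rw [hs2] at hs1
  have hend := hs1.trans hs3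
  nlinarith

end Pool.Agent.Helper9.HT
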